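import Pool.Agent.H14.BR.Stm

set_option autoImplicit false
set_option linter.unreachableTactic false
set_option linter.unusedTactic false

namespace H78.BR

open ZFSet (pair)
open Pool.Agent.W868
open MeasureTheory H14.ES H46.RF H14.BR

/-- iterated successor -/
noncomputable def sk : ℕ → ZFSet.{0} → ZFSet.{0}
  | 0, x => x
  | j + 1, x => insert (sk j x) (sk j x)

theorem sk_nat (i j : ℕ) : sk j (nat i) = nat (i + j) := by
  induction j with
  | zero => rfl
  | succ j ih => rw [sk, ih]; rfl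

theorem sk_dfn {M : Set ZFSet.{0}} (hM : IsZF M) {n : ℕ} {F : (Fin n → ZFSet.{0}) → ZFSet.{0}}
    (hF : DfnF M M F) (j : ℕ) : DfnF M M fun v => sk j (F v) := by
  induction j with
  | zero => exact hF
  | succ j ih => exact hM.base.insert' ih ih

theorem mem_down {T : ZFSet.{0}} (hT : IsTree T) (r : ℕ → Bool) {m n : ℕ} (h : m ≤ n)
    (hn : ini r n ∈ T) : ini r m ∈ T := by
  induction n with
  | zero =>
    have : m = 0 := by omega
    rw [this]; exact hn
  | succ n ih =>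
    rcases Nat.lt_or_ge m (n + 1) with h1 | h1
    · exact ih (by omega) (hT.down r n hn)
    · have : m = n + 1 := by omega
      rw [this]; exact hn

theorem tree_union {T T' : ZFSet.{0}} (hT : IsTree T) (hT' : IsTree T') : IsTree (T ∪ T') := by
  refine ⟨fun z hz => ?_, fun r n h => ?_⟩
  · rcases ZFSet.mem_union.1 hz with h | h
    · exact hT.word z h
    · exact hT'.word z h
  · rcases ZFSet.mem_union.1 h with h | h
    · exact ZFSet.mem_union.2 (Or.inl (hT.down r n h))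
    · exact ZFSet.mem_union.2 (Or.inr (hT'.down r n h))

theorem body_union {T T' : ZFSet.{0}} (hT : IsTree T) (hT' : IsTree T') :
    body (T ∪ T') = body T ∪ body T' := by
  ext r
  constructor
  · intro h
    by_cases h1 : r ∈ body T
    · exact Or.inl h1
    · right
      have h2 : ∃ n, ini r n ∉ T := by
        by_contra hcon
        push Not at hcon
        exact h1 hcon
      obtain ⟨n, hn⟩ := h2
      intro m
      have h3 : ini r (max m n) ∉ T := fun h4 => hn (mem_down hT r (le_max_right _ _) h4)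
      have h4 := h (max m n)
      rcases ZFSet.mem_union.1 h4 with h5 | h5
      · exact absurd h5 h3
      · exact mem_down hT' r (le_max_left _ _) h5
  · rintro (h | h) n
    · exact ZFSet.mem_union.2 (Or.inl (h n))
    · exact ZFSet.mem_union.2 (Or.inr (h n))

/-- finite unions -/
noncomputable def fu (Tn : ℕ → ZFSet.{0}) : ℕ → ZFSet.{0}
  | 0 => ∅
  | j + 1 => fu Tn j ∪ Tn j

theorem fu_mem {M : Set ZFSet.{0}} (hM : IsZF M) (Tn : ℕ → ZFSet.{0}) (h : ∀ i, Tn i ∈ M) (n : ℕ) :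
    fu Tn n ∈ M := by
  induction n with
  | zero => exact hM.empty_mem
  | succ n ih => exact hM.union_mem ih (h n)

theorem fu_tree (Tn : ℕ → ZFSet.{0}) (h : ∀ i, IsTree (Tn i)) (n : ℕ) : IsTree (fu Tn n) := by
  induction n with
  | zero =>
    refine ⟨fun z hz => ?_, fun r n h => ?_⟩
    · exact absurd hz (ZFSet.notMem_empty z)
    · exact absurd h (ZFSet.notMem_empty _)
  | succ n ih => exact tree_union ih (h n)

theorem fu_body (Tn : ℕ → ZFSet.{0}) (h : ∀ i, IsTree (Tn i)) (n : ℕ) :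
    body (fu Tn n) = ⋃ i ∈ Finset.range n, body (Tn i) := by
  induction n with
  | zero =>
    ext r
    simp only [Finset.range_zero, Finset.notMem_empty, Set.iUnion_of_empty, Set.iUnion_empty,
      Set.mem_empty_iff_false, iff_false]
    intro hr
    exact ZFSet.notMem_empty _ (hr 0)
  | succ n ih =>
    rw [fu, body_union (fu_tree Tn h n) (h n), ih]
    ext r
    simp only [Finset.mem_range, Set.mem_union, Set.mem_iUnion, exists_prop]
    constructor
    · rintro (⟨i, hi, h1⟩ | h1)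
      · exact ⟨i, by omega, h1⟩
      · exact ⟨n, by omega, h1⟩
    · rintro ⟨i, hi, h1⟩
      rcases Nat.lt_or_ge i n with h2 | h2
      · exact Or.inl ⟨i, h2, h1⟩
      · have : i = n := by omega
        subst this
        exact Or.inr h1

theorem t_UNI (hCHO : S_CHO) (hDMD : S_DMD) (hUN0 : S_UN0) (hZRL : S_ZRL) (hWRD : H46.RF.S_WRD)
    (hBMS : H46.RF.S_BMS) : S_UNI := by
  intro M hC f hf hfun hreg c hc k
  have hM : IsZF M := hC.toIsZF
  have hB := hM.base
  obtain ⟨-, -, hini, -, -, hWM⟩ := hWRD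
  obtain ⟨hiniM, -, ⟨Wd, hWdM, hWd⟩, -⟩ := hWM M hM
  obtain ⟨hz1, hz2, hZM⟩ := hZRL
  obtain ⟨⟨Re, hReM, hRe⟩, -, -⟩ := hZM M hM
  obtain ⟨-, hbm, -, -, -, -, -⟩ := hBMS
  have hiniW : ∀ r n, ini r n ∈ Wd := fun r n => (hWd _).2 ⟨r, n, rfl⟩
  have code : ∀ (T : ZFSet.{0}) s, (∀ z ∈ Wd, z ⊆ zr s → z ∈ T) ↔ s ∈ body T := by
    intro T s
    constructor
    · intro h n
      exact h _ (hiniW s n) ((hz1 s s n).2 fun i _ => rfl)
    · intro h z hz hzs
      obtain ⟨r, n, rfl⟩ := (hWd z).1 hz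
      have h1 := (hz1 r s n).1 hzs
      rw [(hini r s n n).2 ⟨rfl, h1⟩]
      exact h n
  have insF : ∀ T b, (∀ x ∈ Re, (∀ z ∈ Wd, z ⊆ x → z ∈ T) → x ∈ b) ↔ Ins M T b := by
    intro T b
    constructor
    · intro h s hs hsM
      exact h _ ((hRe _).2 ⟨hsM, s, rfl⟩) ((code T s).2 hs)
    · intro h x hx h1
      obtain ⟨hxM, s, rfl⟩ := (hRe x).1 hx
      exact h s ((code T s).1 h1) hxM
  have outF : ∀ T b, (∀ x ∈ Re, (∀ z ∈ Wd, z ⊆ x → z ∈ T) → ¬ x ∈ b) ↔ Out M T b := by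
    intro T b
    constructor
    · intro h s hs hsM
      exact h _ ((hRe _).2 ⟨hsM, s, rfl⟩) ((code T s).2 hs)
    · intro h x hx h1
      obtain ⟨hxM, s, rfl⟩ := (hRe x).1 hx
      exact h s ((code T s).1 h1) hxM
  -- the relation
  set D : ZFSet.{0} → ZFSet.{0} → Prop := fun a b =>
    IsTree a ∧ ∃ k, b = nat k ∧ 1 ≤ mu ℕ (body a) + (2 ^ k)⁻¹ with hD
  have hDd : Dfn M M fun w : Fin 2 → ZFSet.{0} => D (w 0) (w 1) := hDMD M hM
  have hI : Dfn M M fun w : Fin 2 → ZFSet.{0} =>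
      ∀ x ∈ Re, (∀ z ∈ Wd, z ⊆ x → z ∈ w 0) → x ∈ w 1 := by
    (repeat' first
      | assumption
      | exact DfnF.proj _
      | exact DfnF.const (by assumption)
      | exact Dfn.prop _
      | apply Dfn.not | apply Dfn.and | apply Dfn.or | apply Dfn.imp | apply Dfn.iff
      | apply hB.bex | apply hB.ball | apply Dfn.ex | apply Dfn.all
      | apply hB.subset'
      | apply Dfn.eq | apply Dfn.mem | apply hB.pair')
  have hO : Dfn M M fun w : Fin 2 → ZFSet.{0} =>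
      ∀ x ∈ Re, (∀ z ∈ Wd, z ⊆ x → z ∈ w 0) → ¬ x ∈ w 1 := by
    (repeat' first
      | assumption
      | exact DfnF.proj _
      | exact DfnF.const (by assumption)
      | exact Dfn.prop _
      | apply Dfn.not | apply Dfn.and | apply Dfn.or | apply Dfn.imp | apply Dfn.iff
      | apply hB.bex | apply hB.ball | apply Dfn.ex | apply Dfn.all
      | apply hB.subset'
      | apply Dfn.eq | apply Dfn.mem | apply hB.pair')
  have hI' : Dfn M M fun w : Fin 2 → ZFSet.{0} => Ins M (w 0) (w 1) :=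
    hI.congr fun v _ => insF _ _
  have hO' : Dfn M M fun w : Fin 2 → ZFSet.{0} => Out M (w 0) (w 1) :=
    hO.congr fun v _ => outF _ _
  set R : ZFSet.{0} → ZFSet.{0} → Prop := fun i a => ∃ T ∈ M, ∃ T' ∈ M, ∃ b ∈ M,
    (a = pair T T' ∧ pair i b ∈ f) ∧ (D T (nat 0) ∧ D T' (nat 0)) ∧ (Ins M T b ∧ Out M T' b) ∧
      D (T ∪ T') (sk (k + 2) i) with hR
  have hn0 : nat 0 ∈ M := hM.nat_mem 0
  have hRd : Dfn M M fun w : Fin 2 → ZFSet.{0} => R (w 0) (w 1) := by
    rw [hR]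
    apply Dfn.ex
    apply Dfn.ex
    apply Dfn.ex
    apply Dfn.and
    · apply Dfn.and
      · apply Dfn.eq
        · exact DfnF.proj (4 : Fin 5)
        · exact hB.pair' (DfnF.proj (2 : Fin 5)) (DfnF.proj (1 : Fin 5))
      · apply Dfn.mem
        · exact hB.pair' (DfnF.proj (3 : Fin 5)) (DfnF.proj (0 : Fin 5))
        · exact DfnF.const hf
    apply Dfn.and
    · apply Dfn.and
      · exact Dfn.comp2 (Q := D) hDd (DfnF.proj (2 : Fin 5)) (DfnF.const hn0)
      · exact Dfn.comp2 (Q := D) hDd (DfnF.proj (1 : Fin 5)) (DfnF.const hn0)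
    apply Dfn.and
    · apply Dfn.and
      · exact Dfn.comp2 (Q := fun a b => Ins M a b) hI' (DfnF.proj (2 : Fin 5))
          (DfnF.proj (0 : Fin 5))
      · exact Dfn.comp2 (Q := fun a b => Out M a b) hO' (DfnF.proj (1 : Fin 5))
          (DfnF.proj (0 : Fin 5))
    · exact Dfn.comp2 (Q := D) hDd (hB.union' (DfnF.proj (2 : Fin 5)) (DfnF.proj (1 : Fin 5)))
        (sk_dfn hM (DfnF.proj (3 : Fin 5)) (k + 2))
  obtain ⟨Pw, hPwM, hPw⟩ := hM.exists_pow hWdM
  have hAM : ZFSet.prod Pw Pw ∈ M := hM.prod_mem hPwM hPwM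
  have hDtriv : ∀ T, IsTree T → D T (nat 0) := by
    intro T hT
    refine ⟨hT, 0, rfl, ?_⟩
    simp
  have hsub : ∀ T, IsTree T → T ∈ M → T ∈ Pw := by
    intro T hT hTM
    refine (hPw T).2 ⟨hTM, fun z hz => ?_⟩
    obtain ⟨r, n, rfl⟩ := hT.word z hz
    exact hiniW r n
  obtain ⟨g, hgM, hg1, hg2⟩ := hCHO M hC R hRd _ hAM (by
    intro n
    obtain ⟨b, hb, -⟩ := hfun n
    obtain ⟨T, hT, T', hT', tT, tT', hins, hout, hmu⟩ := hreg n b hb (n + (k + 2))
    refine ⟨pair T T', ZFSet.pair_mem_prod.2 ⟨hsub T tT hT, hsub T' tT' hT'⟩, T, hT, T', hT', b,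
      (hM.of_pair_mem (hM.trans _ hf _ hb)).2, ⟨rfl, hb⟩, ⟨hDtriv T tT, hDtriv T' tT'⟩,
      ⟨hins, hout⟩, tree_union tT tT', n + (k + 2), sk_nat n (k + 2), hmu⟩)
  have hex : ∀ n : ℕ, ∃ T T' b, pair (nat n) (pair T T') ∈ g ∧
      (∀ a, pair (nat n) a ∈ g → a = pair T T') ∧ T ∈ M ∧ T' ∈ M ∧ IsTree T ∧ IsTree T' ∧
      pair (nat n) b ∈ f ∧ Ins M T b ∧ Out M T' b ∧
      1 ≤ mu ℕ (body T ∪ body T') + (2 ^ (n + k + 2))⁻¹ := by
    intro n
    obtain ⟨a, ha, huniq⟩ := hg2 n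
    obtain ⟨n', a', -, hpa, hRa⟩ := hg1 _ ha
    obtain ⟨h1, h2⟩ := ZFSet.pair_inj.1 hpa
    subst h2
    have hnn : n = n' := nat_injective h1
    subst hnn
    obtain ⟨T, hT, T', hT', b, -, ⟨haT, hb⟩, ⟨tT, tT'⟩, ⟨hins, hout⟩, -, k', hk', hmu⟩ := hRa
    subst haT
    rw [sk_nat] at hk'
    have hkk := nat_injective hk'
    subst hkk
    rw [body_union tT.1 tT'.1] at hmu
    refine ⟨T, T', b, ha, fun a ha' => huniq a ha', hT, hT', tT.1, tT'.1, hb, hins, hout, ?_⟩
    exact hmu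
  choose Tn Tn' bn hgn hgu hTM hTM' tT tT' hbf hins hout hmu using hex
  obtain ⟨n, hn⟩ := hUN0 (fun i => body (Tn i)) (fun i => body (Tn' i)) (fun i => hbm _)
    (fun i => hbm _) k (fun i => hmu i)
  -- the outer tree
  have hQ : Dfn M M fun w : Fin 1 → ZFSet.{0} =>
      ∀ p ∈ g, ∀ i ∈ M, ∀ a ∈ M, ∀ a' ∈ M, p = pair i (pair a a') → w 0 ∈ a' := by
    (repeat' first
      | assumption
      | exact DfnF.proj _
      | exact DfnF.const (by assumption)
      | exact Dfn.prop _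
      | apply Dfn.not | apply Dfn.and | apply Dfn.or | apply Dfn.imp | apply Dfn.iff
      | apply hB.bex | apply hB.ball | apply Dfn.ex | apply Dfn.all
      | apply hB.subset'
      | apply Dfn.eq | apply Dfn.mem | apply hB.pair')
  have hT'M := hM.sep_mem (Q := fun z => ∀ p ∈ g, ∀ i ∈ M, ∀ a ∈ M, ∀ a' ∈ M,
    p = pair i (pair a a') → z ∈ a') hQ hWdM
  set U' : ZFSet.{0} := ZFSet.sep (fun z => ∀ p ∈ g, ∀ i ∈ M, ∀ a ∈ M, ∀ a' ∈ M,
    p = pair i (pair a a') → z ∈ a') Wd with hU'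
  have memU' : ∀ z, z ∈ U' ↔ z ∈ Wd ∧ ∀ i, z ∈ Tn' i := by
    intro z
    rw [hU', ZFSet.mem_sep]
    refine and_congr_right fun _ => ?_
    constructor
    · intro h i
      exact h _ (hgn i) (nat i) (hM.nat_mem i) (Tn i) (hTM i) (Tn' i) (hTM' i) rfl
    · intro h p hp i _ a _ a' _ hpe
      obtain ⟨j, a1, -, hpj, -⟩ := hg1 p hp
      have h1 : pair (nat j) a1 ∈ g := hpj ▸ hp
      have h2 := hgu j a1 h1
      rw [hpj, h2] at hpe
      obtain ⟨-, h3⟩ := ZFSet.pair_inj.1 hpe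
      obtain ⟨-, h4⟩ := ZFSet.pair_inj.1 h3
      rw [← h4]
      exact h j
  have tU' : IsTree U' := by
    refine ⟨fun z hz => (hWd z).1 ((memU' z).1 hz).1, fun r n h => ?_⟩
    rw [memU'] at h ⊢
    exact ⟨hiniW r n, fun i => (tT' i).down r n (h.2 i)⟩
  have bU' : body U' = ⋂ i, body (Tn' i) := by
    ext r
    rw [Set.mem_iInter]
    constructor
    · intro h i n
      exact ((memU' _).1 (h n)).2 i
    · intro h n
      exact (memU' _).2 ⟨hiniW r n, fun i => h i n⟩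
  refine ⟨fu Tn n, fu_mem hM Tn hTM n, U', hT'M, fu_tree Tn tT n, tU', ?_, ?_, ?_⟩
  · intro s hs hsM
    rw [fu_body Tn tT] at hs
    simp only [Finset.mem_range, Set.mem_iUnion, exists_prop] at hs
    obtain ⟨i, -, hi⟩ := hs
    exact (hc _).2 ⟨i, bn i, hbf i, hins i s hi hsM⟩
  · intro s hs hsM hsc
    obtain ⟨i, b, hb, hsb⟩ := (hc _).1 hsc
    rw [bU', Set.mem_iInter] at hs
    have hbb : b = bn i := (hfun i).unique hb (hbf i)
    rw [hbb] at hsb
    exact hout i s (hs i) hsM hsb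
  · rw [body_union (fu_tree Tn tT n) tU', fu_body Tn tT, bU']
    exact hn

end H78.BR
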